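import Mathlib
import Pool.Agent.Helper647.FU.MAFinal

set_option autoImplicit false

open Set Filter Topology Cardinal

namespace Pool.Agent.Helper647.GR

/-- `A` is countably compact in `Z`: every infinite `B ⊆ A` has an accumulation point in `Z`. -/
def CountablyCompactIn {Z : Type} [TopologicalSpace Z] (A : Set Z) : Prop :=
  ∀ B ⊆ A, B.Infinite → ∃ y : Z, AccPt y (𝓟 B)

/-- `Z` is a g-space: the closure of every set countably compact in `Z` is compact. -/
def GSpace (Z : Type) [TopologicalSpace Z] : Prop :=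
  ∀ A : Set Z, CountablyCompactIn A → IsCompact (closure A)

/-- `C_p(X)`: the continuous real functions on `X`, with the topology of pointwise convergence
(the subspace topology of the product `X → ℝ`). -/
abbrev Cp (X : Type) [TopologicalSpace X] : Type := {f : X → ℝ // Continuous f}

/-- `X` is Grothendieck: every subspace of `C_p(X)` is a g-space. -/
def Grothendieck (X : Type) [TopologicalSpace X] : Prop := ∀ Z : Set (Cp X), GSpace Z

/-- `X` is a k-space: a set whose trace on every compact set is closed is closed. -/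
def KSpace (X : Type) [TopologicalSpace X] : Prop :=
  ∀ F : Set X, (∀ K : Set X, IsCompact K → IsClosed (K ∩ F)) → IsClosed F

/-- `X` has countable tightness. -/
def CountablyTight (X : Type) [TopologicalSpace X] : Prop :=
  ∀ (A : Set X) (x : X), x ∈ closure A → ∃ B ⊆ A, B.Countable ∧ x ∈ closure B

/-- basic neighbourhoods in `C_p(X)` -/
theorem mem_closure_cp {X : Type} [TopologicalSpace X] (A : Set (Cp X)) (f : Cp X) :
    f ∈ closure A ↔ ∀ (n : ℕ) (x : Fin n → X) (ε : ℝ), 0 < ε →
      ∃ g ∈ A, ∀ i, |g.1 (x i) - f.1 (x i)| < ε := by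
  constructor
  · intro hf n x ε hε
    have hU : IsOpen {g : Cp X | ∀ i, |g.1 (x i) - f.1 (x i)| < ε} := by
      have : {g : Cp X | ∀ i, |g.1 (x i) - f.1 (x i)| < ε} =
          ⋂ i, {g : Cp X | |g.1 (x i) - f.1 (x i)| < ε} := by ext; simp
      rw [this]
      refine isOpen_iInter_of_finite fun i => ?_
      have hc : Continuous fun g : Cp X => g.1 (x i) :=
        (continuous_apply (x i)).comp continuous_subtype_val
      exact isOpen_lt (hc.sub continuous_const).abs continuous_const
    obtain ⟨g, hg1, hg2⟩ := mem_closure_iff.1 hf _ hU (by intro i; simpa using hε)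
    exact ⟨g, hg2, hg1⟩
  · intro h
    rw [mem_closure_iff_nhds]
    intro U hU
    rw [nhds_induced, mem_comap] at hU
    obtain ⟨V, hV, hVU⟩ := hU
    rw [nhds_pi, Filter.mem_pi] at hV
    obtain ⟨I, hI, t, ht, htV⟩ := hV
    choose! ε hε hεt using fun i => Metric.mem_nhds_iff.1 (ht i)
    obtain ⟨n, x, hx⟩ : ∃ (n : ℕ) (x : Fin n → X), range x = I := by
      obtain ⟨n, x, -, hx⟩ := hI.fin_param
      exact ⟨n, x, hx⟩
    obtain ⟨δ, hδ, hδε⟩ : ∃ δ > 0, ∀ i : Fin n, δ ≤ ε (x i) := by
      rcases isEmpty_or_nonempty (Fin n) with hE | hE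
      · exact ⟨1, one_pos, fun i => (hE.false i).elim⟩
      · obtain ⟨i0, hi0⟩ := Finite.exists_min (fun i : Fin n => ε (x i))
        exact ⟨ε (x i0), hε _, hi0⟩
    obtain ⟨g, hgA, hg⟩ := h n x δ hδ
    refine ⟨g, hVU (htV fun i hi => hεt i ?_), hgA⟩
    rw [← hx] at hi
    obtain ⟨j, rfl⟩ := hi
    rw [Metric.mem_ball, Real.dist_eq]
    exact lt_of_lt_of_le (hg j) (hδε j)

/-- the easy half of the Arhangel'skii–Pytkeev theorem -/
theorem tight_cp {X : Type} [TopologicalSpace X] (hL : ∀ n : ℕ, LindelofSpace (Fin n → X))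
    (A : Set (Cp X)) (f : Cp X) (hf : f ∈ closure A) :
    ∃ B ⊆ A, B.Countable ∧ f ∈ closure B := by
  have h1 : ∀ n m : ℕ, ∃ B ⊆ A, B.Countable ∧ ∀ x : Fin n → X, ∃ g ∈ B,
      ∀ i, |g.1 (x i) - f.1 (x i)| < 1 / ((m : ℝ) + 1) := by
    intro n m
    have hpos : (0 : ℝ) < 1 / ((m : ℝ) + 1) := by positivity
    have := hL n
    obtain ⟨r, hr, hcov⟩ := (isLindelof_univ (X := Fin n → X)).elim_countable_subcover
      (fun g : A => {x : Fin n → X | ∀ i, |g.1.1 (x i) - f.1 (x i)| < 1 / ((m : ℝ) + 1)})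
      (fun g => by
        have : {x : Fin n → X | ∀ i, |g.1.1 (x i) - f.1 (x i)| < 1 / ((m : ℝ) + 1)} =
          ⋂ i, {x : Fin n → X | |g.1.1 (x i) - f.1 (x i)| < 1 / ((m : ℝ) + 1)} := by
            ext; simp
        rw [this]
        refine isOpen_iInter_of_finite fun i => ?_
        exact isOpen_lt ((g.1.2.comp (continuous_apply i)).sub
          (f.2.comp (continuous_apply i))).abs continuous_const)
      (fun x _ => by
        obtain ⟨g, hgA, hg⟩ := (mem_closure_cp A f).1 hf n x _ hpos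
        exact mem_iUnion.2 ⟨⟨g, hgA⟩, hg⟩)
    refine ⟨Subtype.val '' r, ?_, hr.image _, fun x => ?_⟩
    · rintro _ ⟨g, _, rfl⟩
      exact g.2
    · obtain ⟨g, hg, hx⟩ := mem_iUnion₂.1 (hcov (mem_univ x))
      exact ⟨g.1, ⟨g, hg, rfl⟩, hx⟩
  choose B hBA hBc hB using h1
  refine ⟨⋃ n, ⋃ m, B n m, iUnion_subset fun n => iUnion_subset fun m => hBA n m,
    countable_iUnion fun n => countable_iUnion fun m => hBc n m, ?_⟩
  rw [mem_closure_cp]
  intro n x ε hε
  obtain ⟨m, hm⟩ := exists_nat_one_div_lt hε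
  obtain ⟨g, hg, hgx⟩ := hB n m x
  exact ⟨g, mem_iUnion.2 ⟨n, mem_iUnion.2 ⟨m, hg⟩⟩, fun i => (hgx i).trans hm⟩

/-- a function in the pointwise closure of a set countably compact in `C_p(X)` agrees on every
countable set with a continuous function, and this function is a cluster value of a sequence -/
theorem agree_countable {X : Type} [TopologicalSpace X] (A : Set (Cp X))
    (hA : CountablyCompactIn A) (g : X → ℝ) (hg : g ∈ closure (Subtype.val '' A))
    (x : ℕ → X) : ∃ f : Cp X, ∀ n, f.1 (x n) = g (x n) := by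
  -- a sequence of members of `A` converging to `g` on the points `x n`
  have h1 : ∀ n : ℕ, ∃ f ∈ A, ∀ i ≤ n, |f.1 (x i) - g (x i)| < 1 / ((n : ℝ) + 1) := by
    intro n
    have hpos : (0 : ℝ) < 1 / ((n : ℝ) + 1) := by positivity
    have hU : IsOpen {h : X → ℝ | ∀ i : Fin (n + 1), |h (x i) - g (x i)| < 1 / ((n : ℝ) + 1)} := by
      have : {h : X → ℝ | ∀ i : Fin (n + 1), |h (x i) - g (x i)| < 1 / ((n : ℝ) + 1)} =
          ⋂ i : Fin (n + 1), {h : X → ℝ | |h (x i) - g (x i)| < 1 / ((n : ℝ) + 1)} := by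
        ext; simp
      rw [this]
      refine isOpen_iInter_of_finite fun i => ?_
      exact isOpen_lt ((continuous_apply (x i)).sub continuous_const).abs continuous_const
    obtain ⟨h, hh, f, hfA, rfl⟩ := mem_closure_iff.1 hg _ hU (by intro i; simpa using hpos)
    exact ⟨f, hfA, fun i hi => hh ⟨i, by omega⟩⟩
  choose f hfA hf using h1
  have hlim : ∀ i, Tendsto (fun n => (f n).1 (x i)) atTop (𝓝 (g (x i))) := by
    intro i
    rw [Metric.tendsto_atTop]
    intro ε hε
    obtain ⟨m, hm⟩ := exists_nat_one_div_lt hε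
    refine ⟨max i m, fun n hn => ?_⟩
    rw [Real.dist_eq]
    refine (hf n i ((le_max_left _ _).trans hn)).trans_le (le_trans ?_ hm.le)
    have : (m : ℝ) ≤ n := by exact_mod_cast (le_max_right i m).trans hn
    exact one_div_le_one_div_of_le (by positivity) (by linarith)
  by_cases hfin : (range f).Finite
  · -- some value is taken infinitely often
    obtain ⟨a, ha⟩ : ∃ a, ∃ᶠ n in atTop, f n = a := by
      by_contra hcon
      push Not at hcon
      have h2 : ∀ᶠ n in atTop, ∀ a ∈ range f, f n ≠ a := by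
        rw [Filter.eventually_all_finite hfin]
        intro a _
        exact hcon a
      obtain ⟨n, hn⟩ := h2.exists
      exact hn _ ⟨n, rfl⟩ rfl
    refine ⟨a, fun i => ?_⟩
    by_contra hne
    have h3 : ∀ᶠ n in atTop, (f n).1 (x i) ≠ a.1 (x i) :=
      (hlim i).eventually (isOpen_ne.mem_nhds (Ne.symm hne))
    obtain ⟨n, hn1, hn2⟩ := (ha.and_eventually h3).exists
    exact hn2 (by rw [hn1])
  · obtain ⟨a, ha⟩ := hA (range f) (by rintro _ ⟨n, rfl⟩; exact hfA n) hfin
    refine ⟨a, fun i => ?_⟩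
    by_contra hne
    -- separate the values
    obtain ⟨U, V, hU, hV, haU, hgV, hUV⟩ := t2_separation hne
    have h3 : ∀ᶠ n in atTop, (f n).1 (x i) ∈ V := (hlim i).eventually (hV.mem_nhds hgV)
    obtain ⟨N, hN⟩ := eventually_atTop.1 h3
    have hcont : Continuous fun h : Cp X => h.1 (x i) :=
      (continuous_apply (x i)).comp continuous_subtype_val
    have hW : {h : Cp X | h.1 (x i) ∈ U} ∈ 𝓝 a := (hU.preimage hcont).mem_nhds haU
    have hinf : ({h : Cp X | h.1 (x i) ∈ U} ∩ range f).Infinite := by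
      have h4 : AccPt a (𝓟 ({h : Cp X | h.1 (x i) ∈ U} ∩ range f)) := by
        have := ha.nhds_inter hW
        exact this
      intro hF
      have h5 : IsClosed (({h : Cp X | h.1 (x i) ∈ U} ∩ range f) \ {a}) :=
        (hF.subset sdiff_subset).isClosed
      have h6 : ∀ᶠ y in 𝓝[≠] a, y ∉ ({h : Cp X | h.1 (x i) ∈ U} ∩ range f) := by
        have : ∀ᶠ y in 𝓝 a, y ∉ (({h : Cp X | h.1 (x i) ∈ U} ∩ range f) \ {a}) :=
          h5.isOpen_compl.mem_nhds (by simp)
        rw [eventually_nhdsWithin_iff]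
        filter_upwards [this] with y hy hya hy2
        exact hy ⟨hy2, hya⟩
      rw [accPt_iff_frequently_nhdsNE] at h4
      exact h4 h6
    refine hinf ?_
    refine ((Set.finite_Iio N).image f).subset ?_
    rintro _ ⟨hyU, n, rfl⟩
    refine ⟨n, ?_, rfl⟩
    by_contra hn
    exact (Set.disjoint_left.1 hUV) hyU (hN n (not_lt.1 hn))

end Pool.Agent.Helper647.GR
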