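import Mathlib
import Pool.Agent.Helper647.GR.Half

set_option autoImplicit false

open Set Filter Topology Cardinal

namespace Pool.Agent.Helper647.GR

theorem exists_cluster {Z : Type} [TopologicalSpace Z] [T1Space Z] (A : Set Z)
    (hA : CountablyCompactIn A) (f : ℕ → Z) (hf : ∀ n, f n ∈ A) :
    ∃ a, ∀ W ∈ 𝓝 a, ∃ᶠ n in atTop, f n ∈ W := by
  by_cases hfin : (range f).Finite
  · obtain ⟨a, ha⟩ : ∃ a, ∃ᶠ n in atTop, f n = a := by
      by_contra hcon
      push Not at hcon
      have h2 : ∀ᶠ n in atTop, ∀ a ∈ range f, f n ≠ a := by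
        rw [Filter.eventually_all_finite hfin]
        intro a _
        exact hcon a
      obtain ⟨n, hn⟩ := h2.exists
      exact hn _ ⟨n, rfl⟩ rfl
    exact ⟨a, fun W hW => ha.mono fun n hn => hn ▸ mem_of_mem_nhds hW⟩
  · obtain ⟨a, ha⟩ := hA (range f) (by rintro _ ⟨n, rfl⟩; exact hf n) hfin
    refine ⟨a, fun W hW => ?_⟩
    have hinf : (W ∩ range f).Infinite := by
      have h4 : AccPt a (𝓟 (W ∩ range f)) := ha.nhds_inter hW
      intro hF
      have h5 : IsClosed ((W ∩ range f) \ {a}) := (hF.subset sdiff_subset).isClosed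
      have h6 : ∀ᶠ y in 𝓝[≠] a, y ∉ (W ∩ range f) := by
        have : ∀ᶠ y in 𝓝 a, y ∉ ((W ∩ range f) \ {a}) :=
          h5.isOpen_compl.mem_nhds (by simp)
        rw [eventually_nhdsWithin_iff]
        filter_upwards [this] with y hy hya hy2
        exact hy ⟨hy2, hya⟩
      rw [accPt_iff_frequently_nhdsNE] at h4
      exact h4 h6
    rw [Nat.frequently_atTop_iff_infinite]
    intro hF
    refine hinf ((hF.image f).subset ?_)
    rintro _ ⟨hy, n, rfl⟩
    exact ⟨n, hy, rfl⟩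

/-- if real numbers `u n` converge to `a` and cluster at `b` then `a = b` -/
theorem eq_of_cluster {u : ℕ → ℝ} {a b : ℝ} (h : Tendsto u atTop (𝓝 a))
    (hb : ∀ ε > 0, ∃ᶠ n in atTop, |u n - b| < ε) : b = a := by
  by_contra hne
  have hε : 0 < |a - b| / 2 := by
    have : 0 < |a - b| := abs_pos.2 (sub_ne_zero.2 (Ne.symm hne))
    linarith
  have h1 : ∀ᶠ n in atTop, |u n - a| < |a - b| / 2 := by
    have := Metric.tendsto_nhds.1 h _ hε
    simpa [Real.dist_eq] using this
  obtain ⟨n, hn1, hn2⟩ := ((hb _ hε).and_eventually h1).exists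
  have : |a - b| ≤ |u n - a| + |u n - b| := by
    have := abs_sub_le a (u n) b
    rw [abs_sub_comm a (u n)] at this
    exact this
  linarith

theorem evOpen {X : Type} [TopologicalSpace X] (x : X) (a : Cp X) (ε : ℝ) (hε : 0 < ε) :
    {h : Cp X | |h.1 x - a.1 x| < ε} ∈ 𝓝 a := by
  have hc : Continuous fun g : Cp X => g.1 x :=
    (continuous_apply x).comp continuous_subtype_val
  have : IsOpen {h : Cp X | |h.1 x - a.1 x| < ε} :=
    isOpen_lt (hc.sub continuous_const).abs continuous_const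
  exact this.mem_nhds (by simpa using hε)

instance cpT1 {X : Type} [TopologicalSpace X] : T1Space (Cp X) := inferInstance

/-- sets countably compact in `C_p(X)` are pointwise bounded -/
theorem bounded {X : Type} [TopologicalSpace X] (A : Set (Cp X)) (hA : CountablyCompactIn A)
    (x : X) : ∃ M : ℝ, ∀ f ∈ A, |f.1 x| ≤ M := by
  by_contra hcon
  push Not at hcon
  choose f hfA hf using fun n : ℕ => hcon n
  obtain ⟨a, ha⟩ := exists_cluster A hA f hfA
  have h1 := ha _ (evOpen x a 1 one_pos)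
  obtain ⟨N, hN⟩ := exists_nat_gt (|a.1 x| + 1)
  obtain ⟨n, hn1, hn2⟩ := (h1.and_eventually (eventually_ge_atTop N)).exists
  have h2 := hf n
  have h3 : |(f n).1 x| ≤ |(f n).1 x - a.1 x| + |a.1 x| := by
    have := abs_add_le ((f n).1 x - a.1 x) (a.1 x)
    simpa using this
  have h4 : (N : ℝ) ≤ n := by exact_mod_cast hn2
  have h5 : |(f n).1 x - a.1 x| < 1 := hn1
  linarith

/-- the pointwise closure of a set countably compact in `C_p(X)` is compact -/
theorem compact_closure {X : Type} [TopologicalSpace X] (A : Set (Cp X))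
    (hA : CountablyCompactIn A) : IsCompact (closure (Subtype.val '' A : Set (X → ℝ))) := by
  choose M hM using bounded A hA
  have h1 : IsCompact (Set.pi univ fun x => Icc (-(M x)) (M x)) :=
    isCompact_univ_pi fun x => isCompact_Icc
  refine h1.of_isClosed_subset isClosed_closure (closure_minimal ?_ h1.isClosed)
  rintro _ ⟨f, hf, rfl⟩ x _
  exact abs_le.1 (hM x f hf)

/-- approximation on a finite set -/
theorem approx {X : Type} (B : Set (X → ℝ)) (g : X → ℝ) (hg : g ∈ closure B)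
    (T : Finset X) (ε : ℝ) (hε : 0 < ε) : ∃ f ∈ B, ∀ t ∈ T, |f t - g t| < ε := by
  have hU : IsOpen {h : X → ℝ | ∀ t ∈ T, |h t - g t| < ε} := by
    have : {h : X → ℝ | ∀ t ∈ T, |h t - g t| < ε} = ⋂ t ∈ T, {h : X → ℝ | |h t - g t| < ε} := by
      ext; simp
    rw [this]
    refine isOpen_biInter_finset fun t _ => ?_
    exact isOpen_lt ((continuous_apply t).sub continuous_const).abs continuous_const
  obtain ⟨h, hh, hB⟩ := mem_closure_iff.1 hg _ hU (by intro t _; simpa using hε)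
  exact ⟨h, hB, hh⟩

theorem approxPt {X : Type} [TopologicalSpace X] (S : Set X) (x : X) (hx : x ∈ closure S)
    (T : Finset (Cp X)) (ε : ℝ) (hε : 0 < ε) : ∃ z ∈ S, ∀ f ∈ T, |f.1 z - f.1 x| < ε := by
  have hU : IsOpen {z : X | ∀ f ∈ T, |f.1 z - f.1 x| < ε} := by
    have : {z : X | ∀ f ∈ T, |f.1 z - f.1 x| < ε} = ⋂ f ∈ T, {z : X | |f.1 z - f.1 x| < ε} := by
      ext; simp
    rw [this]
    refine isOpen_biInter_finset fun f _ => ?_
    exact isOpen_lt (f.2.sub continuous_const).abs continuous_const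
  obtain ⟨h, hh, hB⟩ := mem_closure_iff.1 hx _ hU (by intro t _; simpa using hε)
  exact ⟨h, hB, hh⟩

/-- in a space of countable tightness, the functions in the closure are continuous -/
theorem continuous_of_tight {X : Type} [TopologicalSpace X] (hT : CountablyTight X)
    (A : Set (Cp X)) (hA : CountablyCompactIn A) (g : X → ℝ)
    (hg : g ∈ closure (Subtype.val '' A : Set (X → ℝ))) : Continuous g := by
  rw [continuous_iff_isClosed]
  intro F hF
  rw [← closure_subset_iff_isClosed]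
  intro x hx
  obtain ⟨B, hBF, hB, hxB⟩ := hT _ x hx
  obtain ⟨s, hs⟩ : ∃ s : ℕ → X, insert x B = range s :=
    (hB.insert x).exists_eq_range ⟨x, mem_insert _ _⟩
  obtain ⟨f, hf⟩ := agree_countable A hA g hg s
  have h1 : ∀ y ∈ insert x B, f.1 y = g y := by
    intro y hy
    rw [hs] at hy
    obtain ⟨n, rfl⟩ := hy
    exact hf n
  have h2 : B ⊆ f.1 ⁻¹' F := by
    intro y hy
    rw [mem_preimage, h1 y (mem_insert_of_mem _ hy)]
    exact hBF hy
  have h3 := closure_minimal h2 (hF.preimage f.2) hxB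
  rw [mem_preimage, h1 x (mem_insert _ _)] at h3
  exact h3

/-- in a Hausdorff k-space, the functions in the closure are continuous -/
theorem continuous_of_k {X : Type} [TopologicalSpace X] [T2Space X] (hT : KSpace X)
    (A : Set (Cp X)) (hA : CountablyCompactIn A) (g : X → ℝ)
    (hg : g ∈ closure (Subtype.val '' A : Set (X → ℝ))) : Continuous g := by
  classical
  rw [continuous_iff_isClosed]
  intro F hF
  refine hT _ fun C hC => ?_
  rw [← closure_subset_iff_isClosed]
  intro x hx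
  have hxC : x ∈ C := closure_minimal inter_subset_left hC.isClosed hx
  refine ⟨hxC, ?_⟩
  by_contra hxF
  obtain ⟨ε, hε, hεF⟩ : ∃ ε > 0, ∀ y ∈ g ⁻¹' F, ε ≤ |g y - g x| := by
    have h1 : Fᶜ ∈ 𝓝 (g x) := hF.isOpen_compl.mem_nhds hxF
    obtain ⟨ε, hε, h2⟩ := Metric.mem_nhds_iff.1 h1
    refine ⟨ε, hε, fun y hy => ?_⟩
    by_contra h3
    exact h2 (by rw [Metric.mem_ball, Real.dist_eq]; exact not_le.1 h3) hy
  -- the interleaved sequences
  obtain ⟨s, hsP, hsr⟩ := exists_seq_of_forall_finset_exists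
    (fun t : ℕ × Cp X × X => t.2.1 ∈ A ∧ t.2.2 ∈ C ∩ g ⁻¹' F ∧
      |t.2.1.1 x - g x| < 1 / ((t.1 : ℝ) + 1))
    (fun t t' : ℕ × Cp X × X => t.1 < t'.1 ∧ |t'.2.1.1 t.2.2 - g t.2.2| < 1 / ((t'.1 : ℝ) + 1) ∧
      |t.2.1.1 t'.2.2 - t.2.1.1 x| < 1 / ((t'.1 : ℝ) + 1)) (by
      intro S _
      let k : ℕ := S.sup (fun t => t.1) + 1
      have hk : (0 : ℝ) < 1 / ((k : ℝ) + 1) := by positivity
      obtain ⟨h, ⟨f, hfA, rfl⟩, hf⟩ := approx _ g hg (insert x (S.image fun t => t.2.2)) _ hk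
      obtain ⟨z, hz, hzf⟩ := approxPt _ x hx (S.image fun t => t.2.1) _ hk
      refine ⟨(k, f, z), ⟨hfA, hz, hf x (Finset.mem_insert_self _ _)⟩, fun t ht => ⟨?_, ?_, ?_⟩⟩
      · exact Nat.lt_succ_of_le (Finset.le_sup (f := fun t : ℕ × Cp X × X => t.1) ht)
      · exact hf _ (Finset.mem_insert_of_mem (Finset.mem_image_of_mem _ ht))
      · exact hzf _ (Finset.mem_image_of_mem _ ht))
  have hmono : StrictMono fun n => (s n).1 := fun m n hmn => (hsr m n hmn).1
  have hk : ∀ n, n ≤ (s n).1 := fun n => hmono.le_apply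
  have hle : ∀ n, 1 / (((s n).1 : ℝ) + 1) ≤ 1 / ((n : ℝ) + 1) := fun n => by
    have : (n : ℝ) ≤ (s n).1 := by exact_mod_cast hk n
    exact one_div_le_one_div_of_le (by positivity) (by linarith)
  have hlim0 : Tendsto (fun n : ℕ => 1 / ((n : ℝ) + 1)) atTop (𝓝 0) :=
    tendsto_one_div_add_atTop_nhds_zero_nat
  have htend : ∀ (u : ℕ → ℝ) (c : ℝ) (N : ℕ), (∀ n > N, |u n - c| < 1 / (((s n).1 : ℝ) + 1)) →
      Tendsto u atTop (𝓝 c) := by
    intro u c N h
    rw [tendsto_iff_dist_tendsto_zero]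
    refine squeeze_zero' (Eventually.of_forall fun _ => dist_nonneg) ?_ hlim0
    filter_upwards [eventually_gt_atTop N] with n hn
    rw [Real.dist_eq]
    exact (h n hn).le.trans (hle n)
  have hl1 : ∀ i, Tendsto (fun n => (s n).2.1.1 (s i).2.2) atTop (𝓝 (g (s i).2.2)) :=
    fun i => htend _ _ i fun n hn => (hsr i n hn).2.1
  have hl2 : Tendsto (fun n => (s n).2.1.1 x) atTop (𝓝 (g x)) :=
    htend _ _ 0 fun n _ => (hsP n).2.2
  have hl3 : ∀ i, Tendsto (fun n => (s i).2.1.1 (s n).2.2) atTop (𝓝 ((s i).2.1.1 x)) :=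
    fun i => htend _ _ i fun n hn => (hsr i n hn).2.2
  -- the cluster points
  obtain ⟨y, hyC, hy⟩ := hC.exists_mapClusterPt (u := fun n => (s n).2.2)
    (f := atTop) (tendsto_principal.2 (Eventually.of_forall fun n => (hsP n).2.1.1))
  have hy' : ∀ (f : Cp X) (δ : ℝ), 0 < δ → ∃ᶠ n in atTop, |f.1 (s n).2.2 - f.1 y| < δ := by
    intro f δ hδ
    have hU : {z : X | |f.1 z - f.1 y| < δ} ∈ 𝓝 y := by
      have : IsOpen {z : X | |f.1 z - f.1 y| < δ} :=
        isOpen_lt (f.2.sub continuous_const).abs continuous_const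
      exact this.mem_nhds (by simpa using hδ)
    exact hy.frequently hU
  obtain ⟨f, hf⟩ := exists_cluster A hA (fun n => (s n).2.1) fun n => (hsP n).1
  have hf' : ∀ (z : X) (δ : ℝ), 0 < δ → ∃ᶠ n in atTop, |(s n).2.1.1 z - f.1 z| < δ :=
    fun z δ hδ => hf _ (evOpen z f δ hδ)
  have e1 : ∀ i, (s i).2.1.1 y = (s i).2.1.1 x := fun i => eq_of_cluster (hl3 i) (hy' _)
  have e2 : ∀ i, f.1 (s i).2.2 = g (s i).2.2 := fun i => eq_of_cluster (hl1 i) (hf' _)
  have e3 : f.1 y = g x := by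
    refine eq_of_cluster (u := fun n => (s n).2.1.1 y) ?_ (hf' y)
    simpa only [e1] using hl2
  obtain ⟨n, hn⟩ := (hy' f ε hε).exists
  rw [e2, e3] at hn
  exact absurd hn (not_lt.2 (hεF _ (hsP n).2.1.2))

end Pool.Agent.Helper647.GR
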