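import Mathlib
import Pool.Agent.Helper647.GR.Compact

set_option autoImplicit false

open Set Filter Topology Cardinal

namespace Pool.Agent.Helper647.GR

open Pool.Agent.Helper647.FU (MA1 CTight CountableExtent)

theorem countablyCompactIn_image {Z : Type} [TopologicalSpace Z] (Y : Set Z) (A : Set Y)
    (hA : CountablyCompactIn A) : CountablyCompactIn (Subtype.val '' A : Set Z) := by
  intro B hB hBi
  have h1 : (Subtype.val ⁻¹' B : Set Y) ⊆ A := by
    intro y hy
    obtain ⟨a, ha, hay⟩ := hB hy
    exact (Subtype.ext hay) ▸ ha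
  have h2 : Subtype.val '' (Subtype.val ⁻¹' B : Set Y) = B := by
    apply image_preimage_eq_of_subset
    intro b hb
    obtain ⟨a, ha, hab⟩ := hB hb
    exact ⟨a, hab⟩
  have h3 : (Subtype.val ⁻¹' B : Set Y).Infinite := by
    intro hF
    exact hBi (h2 ▸ hF.image _)
  obtain ⟨y, hy⟩ := hA _ h1 h3
  refine ⟨y.1, ?_⟩
  rw [accPt_iff_nhds] at hy ⊢
  intro U hU
  obtain ⟨z, ⟨hz1, hz2⟩, hz3⟩ := hy _ (continuous_subtype_val.continuousAt.preimage_mem_nhds hU)
  exact ⟨z.1, ⟨hz1, hz2⟩, fun h => hz3 (Subtype.ext h)⟩

theorem grothendieck_of (hMA : MA1) {X : Type} [TopologicalSpace X] [T1Space X]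
    (hL : ∀ n : ℕ, LindelofSpace (Fin n → X))
    (hcont : ∀ A : Set (Cp X), CountablyCompactIn A →
      ∀ g ∈ closure (Subtype.val '' A : Set (X → ℝ)), Continuous g) : Grothendieck X := by
  intro Z A hA
  have hA' := countablyCompactIn_image Z A hA
  set K : Set (X → ℝ) := closure (Subtype.val '' (Subtype.val '' A : Set (Cp X))) with hKdef
  have hK : IsCompact K := compact_closure _ hA'
  have hKc : ∀ g ∈ K, Continuous g := hcont _ hA'
  have hE : CountableExtent X := by
    have := hL 1
    have : LindelofSpace X := by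
      let e : (Fin 1 → X) ≃ₜ X := Homeomorph.funUnique (Fin 1) X
      exact e.symm.isClosedEmbedding.LindelofSpace
    exact Pool.Agent.Helper647.FU.extent_of_lindelof X
  let j : K → Cp X := fun g => ⟨g.1, hKc g.1 g.2⟩
  have hjc : Continuous j := Continuous.subtype_mk continuous_subtype_val _
  have hji : IsInducing j :=
    IsInducing.of_comp hjc continuous_subtype_val (IsInducing.subtypeVal)
  have hjinj : Function.Injective j := fun g h hgh => by
    have h1 : (j g).1 = (j h).1 := by rw [hgh]
    exact Subtype.ext h1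
  have hT : CTight K := by
    intro S g hg
    have h1 : j g ∈ closure (j '' S) := by
      rw [hji.closure_eq_preimage_closure_image] at hg
      exact hg
    obtain ⟨B, hBS, hB, hgB⟩ := tight_cp hL _ _ h1
    have h2 : j '' (j ⁻¹' B) = B :=
      image_preimage_eq_of_subset (hBS.trans (image_subset_range _ _))
    refine ⟨j ⁻¹' B, ?_, hB.preimage hjinj, ?_⟩
    · intro b hb
      obtain ⟨s, hs, hsb⟩ := hBS hb
      exact hjinj hsb ▸ hs
    · rw [hji.closure_eq_preimage_closure_image, h2]
      exact hgB
  have hFU : FrechetUrysohnSpace K :=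
    (Pool.Agent.Helper647.FU.ma_frechet hMA hE K hK hKc).2.1 hT
  have hKZ : ∀ g : K, j g ∈ Z := by
    intro g
    have h1 : g ∈ closure {k : K | k.1 ∈ Subtype.val '' (Subtype.val '' A : Set (Cp X))} := by
      rw [closure_subtype]
      have : Subtype.val '' {k : K | k.1 ∈ Subtype.val '' (Subtype.val '' A : Set (Cp X))} =
          Subtype.val '' (Subtype.val '' A : Set (Cp X)) := by
        ext h
        constructor
        · rintro ⟨k, hk, rfl⟩
          exact hk
        · intro hh
          exact ⟨⟨h, subset_closure hh⟩, hh, rfl⟩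
      rw [this]
      exact g.2
    obtain ⟨u, hu, hug⟩ := mem_closure_iff_seq_limit.1 h1
    choose v hv hvu using hu
    choose w hw hwv using hv
    obtain ⟨z, hz⟩ := exists_cluster A hA w hw
    have h2 : z.1.1 = g.1 := by
      funext x
      have hc : Continuous fun y : Z => y.1.1 x :=
        (continuous_apply x).comp (continuous_subtype_val.comp continuous_subtype_val)
      refine eq_of_cluster (u := fun n => (w n).1.1 x) ?_ fun δ hδ => ?_
      · have h3 : Tendsto (fun n => (u n).1 x) atTop (𝓝 (g.1 x)) :=
          (((continuous_apply x).comp continuous_subtype_val).tendsto g).comp hug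
        refine h3.congr fun n => ?_
        rw [hwv n, hvu n]
      · have : IsOpen {y : Z | |y.1.1 x - z.1.1 x| < δ} :=
          isOpen_lt (hc.sub continuous_const).abs continuous_const
        exact hz {y : Z | |y.1.1 x - z.1.1 x| < δ} (this.mem_nhds (by simpa using hδ))
    have h3 : j g = z.1 := Subtype.ext h2.symm
    rw [h3]
    exact z.2
  let φ : K → Z := fun g => ⟨j g, hKZ g⟩
  have hφ : Continuous φ := hjc.subtype_mk _
  have : CompactSpace K := isCompact_iff_compactSpace.1 hK
  have hR : IsCompact (range φ) := isCompact_range hφ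
  refine hR.of_isClosed_subset isClosed_closure (closure_minimal ?_ hR.isClosed)
  intro a ha
  refine ⟨⟨a.1.1, subset_closure ⟨a.1, ⟨a, ha, rfl⟩, rfl⟩⟩, ?_⟩
  exact Subtype.ext (Subtype.ext rfl)

theorem grothendieck (hMA : MA1) {X : Type} [TopologicalSpace X] [T35Space X]
    (hL : ∀ n : ℕ, LindelofSpace (Fin n → X)) (h : KSpace X ∨ CountablyTight X) :
    Grothendieck X :=
  grothendieck_of hMA hL fun A hA g hg => h.elim (fun h => continuous_of_k h A hA g hg)
    (fun h => continuous_of_tight h A hA g hg)

end Pool.Agent.Helper647.GR
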